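import Pool.Agent.Helper318.L1S.Class

/-!
# Measures whose atomless pieces are separable: `L¹(μ)` is isomorphic to a dual space iff there are
no atomless pieces or at least continuum many

Definitions: `IsAtomSet`, `AtomlessPiece` in `Pool/Agent/Helper318/L1D/Defs.lean`; `IsoToDual`,
`ContinuumManyPieces`, `SeparablePieces` in `Pool/Agent/Helper318/L1S/Class.lean`.

Necessity (for all measures): tree of sets with prescribed signs in `L¹(μ) ≅ X*`, weak* limits of
Rademacher averages along `{0,1}^ℕ` many branches, and a counting argument. Sufficiency: for an
infinite set `I` of atomless pieces with `|I| ≥ 𝔠` the `ℓ¹`-sum of the spaces `L¹(μ|E)` and the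
`ℓ¹`-sum of `I` copies of the dual of `C({0,1}^ℕ)` are complemented in each other, so they are
isomorphic by Pełczyński's decomposition method, and the latter is a dual space.
-/

open MeasureTheory

namespace Pool.Agent.Results.MP_3844f5_an.SeparablePieces

open Pool.Agent.Helper318.L1D

universe u v

/-- Real or complex scalars, `μ` an arbitrary measure.
(1) If `L¹(μ)` is isomorphic to a dual Banach space, then either no set of finite positive measure is
atomless, or there are continuum many almost disjoint atomless sets of finite positive measure.
(2) If `L¹(μ|E)` is separable for every atomless set `E` of finite measure, then the converse holds: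
`L¹(μ)` is isomorphic to a dual Banach space if and only if the number of almost disjoint atomless
pieces is zero or at least the continuum. -/
theorem result (𝕜 : Type v) [RCLike 𝕜] {Ω : Type u} [MeasurableSpace Ω] (μ : Measure Ω) :
    (IsoToDual 𝕜 μ → (∀ E, ¬ AtomlessPiece μ E) ∨ ContinuumManyPieces μ) ∧
    (SeparablePieces 𝕜 μ →
      (IsoToDual 𝕜 μ ↔ (∀ E, ¬ AtomlessPiece μ E) ∨ ContinuumManyPieces μ)) :=
  ⟨necessity, fun hs => ⟨necessity, sufficiency hs⟩⟩

end Pool.Agent.Results.MP_3844f5_an.SeparablePieces
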